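import Mathlib
import Pool.Agent.Z45.PM.Rate
import Pool.Agent.Z45.PM.Low

set_option autoImplicit false

/-!
# The `p`-intersection number of complete multipartite graphs with `k` parts of fixed size `n`

For all `p ≥ 1` and `n ≥ 2` we prove `ϑ_p(K^{(k)}_{n,…,n}) ∼ (n / 2) · log₂ k` as `k → ∞`.

Upper bound: we construct codes of words over `n` letters, of length `L` and of size
`2 ^ ((2 / n - o(1)) L)`, any two of which show every ordered pair of different letters at some
position. The words in which all letters are equally frequent are coloured, for every pair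
`(i, j)` separately, such that equally coloured words show `(i, j)`; such colourings are then
combined for all pairs at a negligible loss, by passing to long sequences of blocks and using the
first and the last block in which two sequences differ.

Lower bound: in each part the two smallest sets have total size at most
`(2 / n) (t + n (n - 1) (p - 1) / 2)`; removing their intersection one gets a family of disjoint
pairs of sets to which a set-pair inequality applies.
-/

namespace Pool.Agent.Results.MP_890668_co.PartsFixed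

open Finset Filter Topology Pool.Agent.Z45.PM

/-- `G` has a `p`-intersection representation on `t` points: finite sets `S v` of points of `Fin t`
such that two distinct vertices `u`, `v` are adjacent if and only if `|S u ∩ S v| ≥ p`. -/
def Represents {V : Type} (G : SimpleGraph V) (p t : ℕ) : Prop :=
  ∃ S : V → Finset (Fin t), ∀ u v, u ≠ v → (G.Adj u v ↔ p ≤ (S u ∩ S v).card)

/-- The `p`-intersection number of `G`: the least `t` such that `G` has a `p`-intersection
representation on `t` points. -/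
noncomputable def pInt {V : Type} (G : SimpleGraph V) (p : ℕ) : ℕ := sInf {t | Represents G p t}

/-- The complete `k`-partite graph with `k` parts of size `n`. -/
def KM (n k : ℕ) : SimpleGraph (Σ _ : Fin k, Fin n) :=
  SimpleGraph.completeMultipartiteGraph fun _ : Fin k => Fin n

theorem adj_iff {n k : ℕ} (u v : Σ _ : Fin k, Fin n) : (KM n k).Adj u v ↔ u.1 ≠ v.1 := Iff.rfl

/-- a representation on any finite set of points -/
theorem represents_of_fintype {V : Type} {G : SimpleGraph V} {p : ℕ} {T : Type} [Fintype T]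
    [DecidableEq T] (S : V → Finset T)
    (h : ∀ u v, u ≠ v → (G.Adj u v ↔ p ≤ (S u ∩ S v).card)) :
    Represents G p (Fintype.card T) := by
  refine ⟨fun v => (S v).map (Fintype.equivFin T).toEmbedding, ?_⟩
  intro u v huv
  rw [← map_inter, card_map]
  exact h u v huv

theorem represents_of_code {n k p L Q B : ℕ} (hp : 1 ≤ p) (hc : Code n L Q) (hk : k ≤ Q ^ B) :
    Represents (KM n k) p (B * L + (n + (p - 1))) := by
  classical
  obtain ⟨f, hf⟩ := hc
  obtain ⟨g⟩ : Nonempty (Fin k ↪ (Fin B → Fin Q)) := by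
    refine Function.Embedding.nonempty_of_card_le ?_
    rw [Fintype.card_fun, Fintype.card_fin, Fintype.card_fin, Fintype.card_fin]
    exact hk
  -- the points: `B * L` positions, one position for each letter, `p - 1` common points
  have hT : Fintype.card ((Fin B × Fin L) ⊕ (Fin n ⊕ Fin (p - 1))) = B * L + (n + (p - 1)) := by
    simp
  rw [← hT]
  -- the membership relation
  let I : (Σ _ : Fin k, Fin n) → (Fin B × Fin L) ⊕ (Fin n ⊕ Fin (p - 1)) → Prop := fun v =>
    Sum.elim (fun q => f (g v.1 q.1) q.2 = v.2) (Sum.elim (fun a => a = v.2) fun _ => True)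
  set E : Finset ((Fin B × Fin L) ⊕ (Fin n ⊕ Fin (p - 1))) :=
    univ.map ⟨fun j : Fin (p - 1) => Sum.inr (Sum.inr j), fun i j h => by simpa using h⟩ with hE
  have hEc : E.card = p - 1 := by rw [hE, card_map, card_univ, Fintype.card_fin]
  refine represents_of_fintype (fun v => univ.filter (I v)) ?_
  rintro ⟨l, a⟩ ⟨m, c⟩ huv
  rw [adj_iff]
  have hsub : E ⊆ (univ.filter (I ⟨l, a⟩)) ∩ univ.filter (I ⟨m, c⟩) := by
    intro x hx
    rw [hE, Finset.mem_map] at hx
    obtain ⟨j, -, rfl⟩ := hx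
    rw [mem_inter, mem_filter, mem_filter]
    exact ⟨⟨mem_univ _, trivial⟩, mem_univ _, trivial⟩
  constructor
  · intro hlm
    have hlm' : l ≠ m := hlm
    -- one more common point
    obtain ⟨x, hx1, hx2, hx3⟩ : ∃ x, x ∉ E ∧ I ⟨l, a⟩ x ∧ I ⟨m, c⟩ x := by
      by_cases hac : a = c
      · refine ⟨Sum.inr (Sum.inl a), ?_, ?_, ?_⟩
        · rw [hE, Finset.mem_map]
          rintro ⟨j, -, hj⟩
          exact Sum.inr_ne_inl (Sum.inr_injective hj)
        · simp [I]
        · simp [I, hac]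
      · have hg : g l ≠ g m := fun h => hlm' (g.injective h)
        obtain ⟨i, hi⟩ := Function.ne_iff.1 hg
        obtain ⟨q, hq1, hq2⟩ := hf _ _ hi (a, c) hac
        refine ⟨Sum.inl (i, q), ?_, hq1, hq2⟩
        rw [hE, Finset.mem_map]
        rintro ⟨j, -, hj⟩
        exact Sum.inr_ne_inl hj
    have h1 : insert x E ⊆ (univ.filter (I ⟨l, a⟩)) ∩ univ.filter (I ⟨m, c⟩) := by
      rw [insert_subset_iff]
      refine ⟨?_, hsub⟩
      rw [mem_inter, mem_filter, mem_filter]
      exact ⟨⟨mem_univ _, hx2⟩, mem_univ _, hx3⟩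
    have h2 := card_le_card h1
    rw [card_insert_of_notMem hx1, hEc] at h2
    omega
  · intro hcard hlm
    have hlm' : l = m := hlm
    subst hlm'
    have hac : a ≠ c := by
      rintro rfl
      exact huv rfl
    have h1 : (univ.filter (I ⟨l, a⟩)) ∩ univ.filter (I ⟨l, c⟩) ⊆ E := by
      intro x hx
      rw [mem_inter, mem_filter, mem_filter] at hx
      obtain ⟨⟨-, h1⟩, -, h2⟩ := hx
      rcases x with q | b | j
      · exact absurd (Eq.trans (Eq.symm h1) h2) hac
      · exact absurd (Eq.trans (Eq.symm h1) h2) hac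
      · rw [hE, Finset.mem_map]
        exact ⟨j, mem_univ _, rfl⟩
    have h2 := card_le_card h1
    rw [hEc] at h2
    omega

theorem pInt_le {n k p L Q B : ℕ} (hp : 1 ≤ p) (hc : Code n L Q) (hk : k ≤ Q ^ B) :
    pInt (KM n k) p ≤ B * L + (n + (p - 1)) :=
  Nat.sInf_le (represents_of_code hp hc hk)

/-- the lower bound -/
theorem lower {n k p t : ℕ} (hn : 2 ≤ n) (hp : 1 ≤ p) (h : Represents (KM n k) p t) :
    ∃ w, n * w ≤ 2 * t + (p - 1) * (n * (n - 1)) ∧ k ≤ 2 ^ w := by
  classical
  obtain ⟨S, hS⟩ := h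
  have hin : ∀ l : Fin k, ∀ a b, a ≠ b → (S ⟨l, a⟩ ∩ S ⟨l, b⟩).card ≤ p - 1 := by
    intro l a b hab
    by_contra hcon
    have h1 : p ≤ (S ⟨l, a⟩ ∩ S ⟨l, b⟩).card := by omega
    have h2 := (hS ⟨l, a⟩ ⟨l, b⟩ (by simpa using hab)).2 h1
    rw [adj_iff] at h2
    exact h2 rfl
  have hout : ∀ l m : Fin k, l ≠ m → ∀ a b, p ≤ (S ⟨l, a⟩ ∩ S ⟨m, b⟩).card := by
    intro l m hlm a b
    refine (hS ⟨l, a⟩ ⟨m, b⟩ ?_).1 ((adj_iff _ _).2 hlm)
    intro h
    exact hlm (congrArg Sigma.fst h)
  have hsum : ∀ l : Fin k, 2 * ∑ a, (S ⟨l, a⟩).card ≤ 2 * t + (p - 1) * (n * (n - 1)) := by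
    intro l
    have h1 := sum_card_bound (fun a => S ⟨l, a⟩) (p - 1) (hin l) univ
    rw [card_univ, Fintype.card_fin] at h1
    have h2 : (univ.biUnion fun a => S ⟨l, a⟩).card ≤ t := by
      have := card_le_univ (univ.biUnion fun a => S ⟨l, a⟩)
      rwa [Fintype.card_fin] at this
    omega
  choose a b hab hle using fun l : Fin k => exists_two_small hn fun a => (S ⟨l, a⟩).card
  refine ⟨(2 * t + (p - 1) * (n * (n - 1))) / n, Nat.mul_div_le _ _, ?_⟩
  refine set_pair (fun l => S ⟨l, a l⟩ \ S ⟨l, b l⟩) (fun l => S ⟨l, b l⟩) ?_ ?_ ?_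
  · intro l
    exact sdiff_disjoint
  · intro l
    rw [Nat.le_div_iff_mul_le (by omega), mul_comm]
    refine le_trans (Nat.mul_le_mul_left n ?_) ((hle l).trans (hsum l))
    exact Nat.add_le_add_right (card_le_card sdiff_subset) _
  · intro l m hlm
    rw [← card_pos]
    have h1 := hout l m hlm (a l) (b m)
    have h2 := hin l (a l) (b l) (hab l)
    have h3 : S ⟨l, a l⟩ ∩ S ⟨m, b m⟩ ⊆
        ((S ⟨l, a l⟩ \ S ⟨l, b l⟩) ∩ S ⟨m, b m⟩) ∪ (S ⟨l, a l⟩ ∩ S ⟨l, b l⟩) := by
      intro x hx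
      rw [mem_inter] at hx
      rw [mem_union, mem_inter, mem_inter, Finset.mem_sdiff]
      by_cases hxb : x ∈ S ⟨l, b l⟩
      · exact Or.inr ⟨hx.1, hxb⟩
      · exact Or.inl ⟨⟨hx.1, hxb⟩, hx.2⟩
    have h4 := (card_le_card h3).trans (card_union_le _ _)
    omega

/-- the lower bound for the `p`-intersection number, in logarithmic form -/
theorem lower_real {n k p L Q : ℕ} (hn : 2 ≤ n) (hp : 1 ≤ p) (hk : 1 ≤ k) (hc : Code n L Q)
    (hQ : 2 ≤ Q) :
    (n : ℝ) / 2 * Real.logb 2 k - (p * n * n : ℕ) ≤ pInt (KM n k) p := by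
  have hmem : Represents (KM n k) p (pInt (KM n k) p) := by
    refine Nat.sInf_mem (s := {t | Represents (KM n k) p t}) ⟨_, represents_of_code (B := k) hp hc ?_⟩
    exact (Nat.lt_two_pow_self).le.trans (Nat.pow_le_pow_left hQ k)
  obtain ⟨w, hw1, hw2⟩ := lower hn hp hmem
  have hkr : (0 : ℝ) < k := by exact_mod_cast hk
  have h1 : Real.logb 2 k ≤ w := by
    have h2 : (k : ℝ) ≤ (2 : ℝ) ^ w := by exact_mod_cast hw2
    have h3 := Real.logb_le_logb_of_le (by norm_num : (1 : ℝ) < 2) hkr h2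
    rw [Real.logb_pow, Real.logb_self_eq_one (by norm_num)] at h3
    linarith
  have h4 : n * w ≤ 2 * pInt (KM n k) p + 2 * (p * n * n) := by
    refine hw1.trans (Nat.add_le_add_left ?_ _)
    have h5 : (p - 1) * (n * (n - 1)) ≤ p * (n * n) :=
      Nat.mul_le_mul (Nat.sub_le _ _) (Nat.mul_le_mul_left _ (Nat.sub_le _ _))
    nlinarith
  have h6 : (n : ℝ) * w ≤ 2 * pInt (KM n k) p + 2 * (p * n * n : ℕ) := by exact_mod_cast h4
  have hn0 : (0 : ℝ) ≤ n := Nat.cast_nonneg n
  have h7 := mul_le_mul_of_nonneg_left h1 hn0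
  linarith

/-- **Theorem.** For all `p ≥ 1` and `n ≥ 2`, the `p`-intersection number of the complete
`k`-partite graph with parts of size `n` is asymptotic to `(n / 2) · log₂ k` as `k → ∞`. -/
theorem result (n p : ℕ) (hn : 2 ≤ n) (hp : 1 ≤ p) :
    Tendsto (fun k : ℕ => (pInt (KM n k) p : ℝ) / ((n : ℝ) / 2 * Real.logb 2 k)) atTop (𝓝 1) := by
  have hnr : (0 : ℝ) < n := by
    have : 0 < n := by omega
    exact_mod_cast this
  have hlog : Tendsto (fun k : ℕ => Real.logb 2 k) atTop atTop :=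
    (Real.tendsto_logb_atTop (by norm_num)).comp tendsto_natCast_atTop_atTop
  have hnlog : Tendsto (fun k : ℕ => (n : ℝ) / 2 * Real.logb 2 k) atTop atTop :=
    hlog.const_mul_atTop (by positivity)
  -- codes
  have hcode : ∀ η : ℝ, 0 < η → η < 1 → ∃ Q L : ℕ, 2 ≤ Q ∧ 0 < L ∧ Code n L Q ∧
      (1 - η) * L ≤ (n : ℝ) / 2 * Real.logb 2 Q := by
    intro η hη hη1
    obtain ⟨Q, L, hQ, hL, hc, hr⟩ := exists_code hn (δ := 2 / n * η) (by positivity)
    have hLr : (0 : ℝ) < L := by exact_mod_cast hL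
    rw [lt_div_iff₀ hLr] at hr
    have h1 : (1 - η) * L < (n : ℝ) / 2 * Real.logb 2 Q := by
      have h2 := mul_lt_mul_of_pos_left hr (by positivity : (0 : ℝ) < n / 2)
      have h3 : (n : ℝ) / 2 * ((2 / n - 2 / n * η) * L) = (1 - η) * L := by
        field_simp
      rw [h3] at h2
      exact h2
    refine ⟨Q, L, ?_, hL, hc, h1.le⟩
    by_contra hcon
    have hQ1 : Q = 1 := by omega
    rw [hQ1, Nat.cast_one, Real.logb_one, mul_zero] at h1
    have : 0 < (1 - η) * L := mul_pos (by linarith) hLr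
    linarith
  rw [Metric.tendsto_atTop']
  intro ε hε
  -- choose the code
  set η : ℝ := min (1 / 2) (ε / 4) with hη
  have hη0 : 0 < η := lt_min (by norm_num) (by positivity)
  have hη1 : η ≤ 1 / 2 := min_le_left _ _
  have hη2 : η ≤ ε / 4 := min_le_right _ _
  obtain ⟨Q, L, hQ, hL, hc, hr⟩ := hcode η hη0 (by linarith)
  -- large k
  have hev := hnlog.eventually_gt_atTop (2 * (L + n + p + (p * n * n : ℕ)) / ε)
  obtain ⟨K, hK⟩ := (hev.and (eventually_ge_atTop 2)).exists_forall_of_atTop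
  refine ⟨K, fun k hk => ?_⟩
  obtain ⟨hk1, hk2⟩ := hK k hk.le
  have hkr : (0 : ℝ) < k := by
    have : 0 < k := by omega
    exact_mod_cast this
  have hX : 0 < (n : ℝ) / 2 * Real.logb 2 k := by
    refine lt_of_le_of_lt ?_ hk1
    positivity
  rw [div_lt_iff₀ hε] at hk1
  have hlow := lower_real hn hp (by omega : 1 ≤ k) hc hQ
  -- the upper bound
  have hup : (pInt (KM n k) p : ℝ) ≤ (1 + 2 * η) * ((n : ℝ) / 2 * Real.logb 2 k) + L + n + p := by
    set B := Nat.clog Q k with hB
    have h1 : k ≤ Q ^ B := Nat.le_pow_clog (by omega) k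
    have h2 := pInt_le (L := L) hp hc h1
    have h3 : Q ^ (B - 1) < k := Nat.pow_pred_clog_lt_self (by omega) (by omega)
    have hB1 : 1 ≤ B := Nat.clog_pos (by omega) hk2
    obtain ⟨b, hb⟩ := Nat.exists_eq_add_of_le' hB1
    rw [hb, Nat.add_sub_cancel] at h3
    have hQr : (0 : ℝ) < Q := by
      have : 0 < Q := by omega
      exact_mod_cast this
    have h4 : (b : ℝ) * Real.logb 2 Q ≤ Real.logb 2 k := by
      have h5 : (Q : ℝ) ^ b ≤ k := by exact_mod_cast h3.le
      have h6 := Real.logb_le_logb_of_le (by norm_num : (1 : ℝ) < 2) (by positivity) h5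
      rw [Real.logb_pow] at h6
      exact h6
    have h5 : (pInt (KM n k) p : ℝ) ≤ b * L + L + n + p := by
      have h6 : pInt (KM n k) p ≤ b * L + L + n + p := by
        refine h2.trans ?_
        rw [hb, add_mul, one_mul]
        omega
      exact_mod_cast h6
    have hb0 : (0 : ℝ) ≤ b := Nat.cast_nonneg b
    have h7 : (1 - η) * (b * L) ≤ (n : ℝ) / 2 * Real.logb 2 k := by
      calc (1 - η) * (b * L) = b * ((1 - η) * L) := by ring
        _ ≤ b * ((n : ℝ) / 2 * Real.logb 2 Q) := mul_le_mul_of_nonneg_left hr hb0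
        _ = (n : ℝ) / 2 * (b * Real.logb 2 Q) := by ring
        _ ≤ _ := mul_le_mul_of_nonneg_left h4 (by positivity)
    have h8 : (b : ℝ) * L ≤ (1 + 2 * η) * ((n : ℝ) / 2 * Real.logb 2 k) := by
      have hbL : (0 : ℝ) ≤ b * L := by positivity
      have h9 := mul_le_mul_of_nonneg_left h7 (by linarith : (0 : ℝ) ≤ 1 + 2 * η)
      have h10 : (b : ℝ) * L ≤ (1 + 2 * η) * ((1 - η) * (b * L)) := by
        have h11 : (0 : ℝ) ≤ η * (1 - 2 * η) * (b * L) :=
          mul_nonneg (mul_nonneg hη0.le (by linarith)) hbL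
        nlinarith
      exact h10.trans h9
    linarith
  set X := (n : ℝ) / 2 * Real.logb 2 k with hXdef
  set C : ℝ := ((p * n * n : ℕ) : ℝ) with hC
  have hC0 : 0 ≤ C := Nat.cast_nonneg _
  have hL0 : (0 : ℝ) ≤ L := Nat.cast_nonneg _
  have hp0 : (0 : ℝ) ≤ p := Nat.cast_nonneg _
  rw [Real.dist_eq, abs_lt]
  constructor
  · rw [lt_sub_iff_add_lt, lt_div_iff₀ hX]
    nlinarith
  · rw [sub_lt_iff_lt_add, div_lt_iff₀ hX]
    have h1 : 2 * η * X ≤ ε / 2 * X := mul_le_mul_of_nonneg_right (by linarith) hX.le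
    nlinarith

end Pool.Agent.Results.MP_890668_co.PartsFixed
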